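import Pool.Agent.Run7.h991.MU.Iface

open MeasureTheory Metric

namespace H991.MU

theorem t_RAYA (hRAY : S_RAY) : S_RAYA := by
  intro F A hF hA hC x₀ y₀ c κ hx hy hc hκ hneg
  obtain ⟨A₀, hA₀def⟩ : ∃ A₀ : ℝ, A₀ = A x₀ y₀ := ⟨_, rfl⟩
  rw [← hA₀def] at hneg
  have hA₀ : 0 ≤ A₀ := by rw [hA₀def]; exact hC.1 x₀ y₀ hx hy
  have hAdm : Adm F x₀ y₀ A₀ := by rw [hA₀def]; exact (hA x₀ y₀ hx hy).1
  have hmax : ∀ a, Adm F x₀ y₀ a → a ≤ A₀ := by rw [hA₀def]; exact (hA x₀ y₀ hx hy).2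
  obtain ⟨k, hk⟩ : ∃ k : ℝ, k = min (1 / 2) (min (κ / (2 * (x₀ + y₀))) (c / (2 * (A₀ + 1)))) :=
    ⟨_, rfl⟩
  have hk0 : 0 < k := by
    rw [hk]
    refine lt_min (by norm_num) (lt_min ?_ ?_) <;> positivity
  have hk1 : k ≤ 1 / 2 := by rw [hk]; exact min_le_left _ _
  have hk2 : k * (x₀ + y₀) ≤ κ / 2 := by
    have h1 : k ≤ κ / (2 * (x₀ + y₀)) := by
      rw [hk]; exact le_trans (min_le_right _ _) (min_le_left _ _)
    have h2 : 0 < x₀ + y₀ := by positivity
    calc k * (x₀ + y₀) ≤ κ / (2 * (x₀ + y₀)) * (x₀ + y₀) :=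
          mul_le_mul_of_nonneg_right h1 h2.le
      _ = κ / 2 := by field_simp
  have hk3 : A₀ * k ≤ c / 2 := by
    have h1 : k ≤ c / (2 * (A₀ + 1)) := by
      rw [hk]; exact le_trans (min_le_right _ _) (min_le_right _ _)
    have h2 : 0 < A₀ + 1 := by positivity
    calc A₀ * k ≤ (A₀ + 1) * k := by nlinarith
      _ ≤ (A₀ + 1) * (c / (2 * (A₀ + 1))) := mul_le_mul_of_nonneg_left h1 h2.le
      _ = c / 2 := by field_simp
  obtain ⟨c', hc', hray⟩ := hRAY (c / 2) k (half_pos hc) hk0 hk1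
  have key : Adm F x₀ y₀ (A₀ + c') := by
    intro t ht β γ
    obtain ⟨G, hG⟩ : ∃ G : ℂ → ℂ, G = fun ζ : ℂ =>
        F ((x₀ : ℂ) * ζ + (β : ℂ) * Complex.I, (y₀ : ℂ) * ζ + (γ : ℂ) * Complex.I) *
          Complex.exp ((A₀ : ℂ) * ζ) := ⟨_, rfl⟩
    have hnexp : ∀ ζ : ℂ, ‖Complex.exp ((A₀ : ℂ) * ζ)‖ = Real.exp (A₀ * ζ.re) := by
      intro ζ
      rw [Complex.norm_exp]
      simp
    have hpt : ∀ (u b : ℝ) (ζ : ℂ), (u : ℂ) * ζ + (b : ℂ) * Complex.I
        = (⟨ζ.re * u, u * ζ.im + b⟩ : ℂ) := by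
      intro u b ζ
      apply Complex.ext
      · simp [mul_comm]
      · simp
    have hdiff : DifferentiableOn ℂ G {z | 0 < z.re} := by
      rw [hG]
      apply DifferentiableOn.mul
      · have : DifferentiableOn ℂ (fun ζ : ℂ =>
            (((x₀ : ℂ) * ζ + (β : ℂ) * Complex.I, (y₀ : ℂ) * ζ + (γ : ℂ) * Complex.I) : ℂ × ℂ))
            {z | 0 < z.re} := by fun_prop
        refine hF.1.comp this ?_
        intro ζ hζ
        simp only [Set.mem_ofPred_eq] at hζ
        rw [mem_RH2]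
        constructor
        · simp; positivity
        · simp; positivity
      · fun_prop
    have hbd : ∀ z : ℂ, 0 < z.re → ‖G z‖ ≤ 1 := by
      intro z hz
      rw [hG]
      simp only
      rw [norm_mul, hnexp, hpt, hpt]
      have h1 := hAdm z.re hz (x₀ * z.im + β) (y₀ * z.im + γ)
      calc _ ≤ Real.exp (-(A₀ * z.re)) * Real.exp (A₀ * z.re) :=
            mul_le_mul_of_nonneg_right h1 (Real.exp_pos _).le
        _ = 1 := by rw [← Real.exp_add]; simp
    have hlarge : ∀ R₀ : ℝ, ∃ R : ℝ, R₀ ≤ R ∧ ∀ z : ℂ, ‖z - (R : ℂ)‖ ≤ k * R →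
        ‖G z‖ ≤ Real.exp (-(c / 2 * R)) := by
      intro R₀
      obtain ⟨R, hR, hRb⟩ := hneg (max R₀ (2 * (|β| + |γ|) / κ))
      refine ⟨R, le_trans (le_max_left _ _) hR, ?_⟩
      have hR1 : 2 * (|β| + |γ|) / κ ≤ R := le_trans (le_max_right _ _) hR
      have hβγ : |β| + |γ| ≤ κ / 2 * R := by
        rw [div_le_iff₀ hκ] at hR1
        linarith
      have hRnn : 0 ≤ R := le_trans (by positivity) hR1
      intro z hz
      have hgen : ∀ (u b : ℝ), 0 < u → u ≤ x₀ + y₀ → |b| ≤ |β| + |γ| →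
          ‖(u : ℂ) * z + (b : ℂ) * Complex.I - ((R * u : ℝ) : ℂ)‖ ≤ κ * R := by
        intro u b hu hu2 hb
        have e : (u : ℂ) * z + (b : ℂ) * Complex.I - ((R * u : ℝ) : ℂ)
            = (u : ℂ) * (z - (R : ℂ)) + (b : ℂ) * Complex.I := by
          push_cast; ring
        rw [e]
        calc ‖(u : ℂ) * (z - (R : ℂ)) + (b : ℂ) * Complex.I‖
            ≤ ‖(u : ℂ) * (z - (R : ℂ))‖ + ‖(b : ℂ) * Complex.I‖ := norm_add_le _ _
          _ = u * ‖z - (R : ℂ)‖ + |b| := by
              rw [norm_mul, norm_mul, Complex.norm_I, Complex.norm_real, Complex.norm_real,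
                Real.norm_eq_abs, Real.norm_eq_abs, abs_of_pos hu, mul_one]
          _ ≤ u * (k * R) + (|β| + |γ|) := by
              have := mul_le_mul_of_nonneg_left hz hu.le
              linarith
          _ ≤ (x₀ + y₀) * (k * R) + κ / 2 * R := by
              have : u * (k * R) ≤ (x₀ + y₀) * (k * R) :=
                mul_le_mul_of_nonneg_right hu2 (by positivity)
              linarith
          _ ≤ κ * R := by
              have := mul_le_mul_of_nonneg_right hk2 hRnn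
              nlinarith
      have hF1 := hRb _ _ (hgen x₀ β hx (by linarith) (by have := abs_nonneg γ; linarith))
        (hgen y₀ γ hy (by linarith) (by have := abs_nonneg β; linarith))
      have hre : z.re ≤ R + k * R := by
        have h1 : (z - (R : ℂ)).re ≤ ‖z - (R : ℂ)‖ := Complex.re_le_norm _
        simp at h1
        linarith
      rw [hG]
      simp only
      rw [norm_mul, hnexp]
      calc _ ≤ Real.exp (-((A₀ + c) * R)) * Real.exp (A₀ * z.re) :=
            mul_le_mul_of_nonneg_right hF1 (Real.exp_pos _).le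
        _ = Real.exp (-((A₀ + c) * R) + A₀ * z.re) := by rw [Real.exp_add]
        _ ≤ Real.exp (-(c / 2 * R)) := by
            apply Real.exp_le_exp.mpr
            have h1 : A₀ * z.re ≤ A₀ * (R + k * R) := mul_le_mul_of_nonneg_left hre hA₀
            have h2 : A₀ * k * R ≤ c / 2 * R := mul_le_mul_of_nonneg_right hk3 hRnn
            nlinarith
    have hfin := hray G hdiff hbd hlarge (t : ℂ) (by simpa using ht)
    rw [hG] at hfin
    simp only at hfin
    rw [norm_mul, hnexp, hpt, hpt] at hfin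
    simp only [Complex.ofReal_re, Complex.ofReal_im, mul_zero, zero_add] at hfin
    have hpos : 0 < Real.exp (A₀ * t) := Real.exp_pos _
    have h3 : Real.exp (-((A₀ + c') * t)) * Real.exp (A₀ * t) = Real.exp (-(c' * t)) := by
      rw [← Real.exp_add]
      congr 1
      ring
    rw [← h3] at hfin
    exact le_of_mul_le_mul_right hfin hpos
  have := hmax _ key
  linarith

end H991.MU
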