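import Pool.Agent.Run7.h991.MU.Iface

open MeasureTheory Metric

namespace H991.MU

theorem zer_factor (c : ℂ) (R : ℝ) (Z : Finset ℂ) : ∀ g : ℂ → ℂ,
    DifferentiableOn ℂ g (ball c R) → (∀ a ∈ Z, a ∈ ball c R ∧ g a = 0) →
    ∃ h : ℂ → ℂ, DifferentiableOn ℂ h (ball c R) ∧ ∀ z, g z = (∏ a ∈ Z, (z - a)) * h z := by
  classical
  induction Z using Finset.induction_on with
  | empty => intro g hg _; exact ⟨g, hg, fun z => by simp⟩
  | insert a Z ha ih =>
    intro g hg hZ
    have ha1 := hZ a (Finset.mem_insert_self a Z)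
    have hds : DifferentiableOn ℂ (dslope g a) (ball c R) :=
      (Complex.differentiableOn_dslope (isOpen_ball.mem_nhds ha1.1)).mpr hg
    have hfac : ∀ z, g z = (z - a) * dslope g a z := by
      intro z
      have := sub_smul_dslope g a z
      rw [smul_eq_mul, ha1.2, sub_zero] at this
      exact this.symm
    obtain ⟨h, hh, hh2⟩ := ih (dslope g a) hds (by
      intro b hb
      have hb1 := hZ b (Finset.mem_insert_of_mem hb)
      refine ⟨hb1.1, ?_⟩
      have hne : b - a ≠ 0 := by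
        intro h0
        exact ha (sub_eq_zero.mp h0 ▸ hb)
      have h2 := hfac b
      rw [hb1.2] at h2
      rcases mul_eq_zero.mp h2.symm with h3 | h3
      · exact absurd h3 hne
      · exact h3)
    refine ⟨h, hh, fun z => ?_⟩
    rw [Finset.prod_insert ha, mul_assoc, ← hh2 z]
    exact hfac z

theorem t_ZER : S_ZER := by
  intro ρ M c g Z hρ hM hg hgM hZ z hz
  have hZ2 : ∀ a ∈ Z, a ∈ ball c (8 * ρ) ∧ g a = 0 := by
    intro a ha
    refine ⟨?_, (hZ a ha).2⟩
    have := (hZ a ha).1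
    rw [mem_closedBall] at this
    rw [mem_ball]
    linarith
  obtain ⟨h, hh, hfac⟩ := zer_factor c (8 * ρ) Z g hg hZ2
  have hsub : closedBall c (5 * ρ) ⊆ ball c (8 * ρ) := closedBall_subset_ball (by linarith)
  have hbd : ∀ w ∈ frontier (ball c (5 * ρ)), ‖h w‖ ≤ M / (4 * ρ) ^ Z.card := by
    intro w hw
    have hw1 : w ∈ sphere c (5 * ρ) := frontier_ball_subset_sphere hw
    have hw2 : ‖w - c‖ = 5 * ρ := by rwa [mem_sphere, dist_eq_norm] at hw1
    have hw3 : ‖g w‖ ≤ M := hgM w (hsub (sphere_subset_closedBall hw1))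
    have hprod : (4 * ρ) ^ Z.card ≤ ∏ a ∈ Z, ‖w - a‖ := by
      rw [← Finset.prod_const]
      apply Finset.prod_le_prod
      · intro a _; positivity
      · intro a ha
        have h1 := (hZ a ha).1
        rw [mem_closedBall, dist_eq_norm] at h1
        have h2 : ‖w - c‖ ≤ ‖w - a‖ + ‖a - c‖ := by
          have : w - c = (w - a) + (a - c) := by ring
          rw [this]; exact norm_add_le _ _
        linarith
    have hpos : 0 < (4 * ρ) ^ Z.card := by positivity
    rw [le_div_iff₀ hpos]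
    calc ‖h w‖ * (4 * ρ) ^ Z.card ≤ ‖h w‖ * ∏ a ∈ Z, ‖w - a‖ :=
          mul_le_mul_of_nonneg_left hprod (norm_nonneg _)
      _ = ‖g w‖ := by rw [hfac w, norm_mul, norm_prod, mul_comm]
      _ ≤ M := hw3
  have hdc : DiffContOnCl ℂ h (ball c (5 * ρ)) := by
    apply DifferentiableOn.diffContOnCl
    exact hh.mono (closure_ball_subset_closedBall.trans hsub)
  have hz5 : z ∈ closure (ball c (5 * ρ)) := by
    apply subset_closure
    rw [mem_closedBall] at hz
    rw [mem_ball]
    linarith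
  have hhz : ‖h z‖ ≤ M / (4 * ρ) ^ Z.card :=
    Complex.norm_le_of_forall_mem_frontier_norm_le isBounded_ball hdc hbd hz5
  have hprod2 : ∏ a ∈ Z, ‖z - a‖ ≤ (2 * ρ) ^ Z.card := by
    rw [← Finset.prod_const]
    apply Finset.prod_le_prod
    · intro a _; positivity
    · intro a ha
      have h1 := (hZ a ha).1
      rw [mem_closedBall, dist_eq_norm] at h1 hz
      have h2 : ‖z - a‖ ≤ ‖z - c‖ + ‖a - c‖ := by
        have : z - a = (z - c) - (a - c) := by ring
        rw [this]; exact norm_sub_le _ _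
      linarith
  calc ‖g z‖ = (∏ a ∈ Z, ‖z - a‖) * ‖h z‖ := by rw [hfac z, norm_mul, norm_prod]
    _ ≤ (2 * ρ) ^ Z.card * (M / (4 * ρ) ^ Z.card) :=
        mul_le_mul hprod2 hhz (norm_nonneg _) (by positivity)
    _ = M * (1 / 2) ^ Z.card := by
        have h4 : (4 * ρ) ^ Z.card = (2 * ρ) ^ Z.card * 2 ^ Z.card := by
          rw [← mul_pow]; congr 1; ring
        rw [h4, one_div, inv_pow]
        have h5 : (2 * ρ) ^ Z.card ≠ 0 := by positivity
        have h6 : (2 : ℝ) ^ Z.card ≠ 0 := by positivity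
        field_simp

end H991.MU
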